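import Pool.Agent.W388.TW.D0
import Pool.Agent.W108.TW.Mellin

/-!
# CY-AFE, analytic part: the Mellin transform of a theta-like series of weight 2 and its central
value.
-/

set_option autoImplicit false

open Complex Filter Topology Set MeasureTheory

namespace Pool.Agent.W378.CY

open Pool.Agent.W108.TW

lemma int_term (z : ℂ) (c t0 : ℝ) (hc : 0 < c) (n : ℕ) (hn : 1 ≤ n) :
    ∫ t in Ioi t0, z * (Real.exp (-(c * n) * t) : ℂ) =
      z * ((Real.exp (-(c * n) * t0) / (c * n) : ℝ) : ℂ) := by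
  have hn' : (0 : ℝ) < n := by exact_mod_cast hn
  have h0 : 0 < c * n := by positivity
  rw [integral_const_mul]
  congr 1
  rw [integral_complex_ofReal, integral_exp_mul_Ioi (by linarith)]
  rw [neg_div_neg_eq]

/-- termwise integration -/
lemma int_Th {b : ℕ → ℂ} {m C : ℝ} (hb0 : b 0 = 0)
    (hb : ∀ n : ℕ, 1 ≤ n → ‖b n‖ ≤ C * (n : ℝ) ^ m) {c : ℝ} (hc : 0 < c) {t0 : ℝ} (ht : 0 < t0) :
    ∫ t in Ioi t0, Th b c t =
      ∑' n : ℕ, b n * ((Real.exp (-(c * n) * t0) / (c * n) : ℝ) : ℂ) := by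
  unfold Th
  have hint : ∀ n : ℕ, Integrable (fun t : ℝ => b n * (Real.exp (-(c * n) * t) : ℂ))
      (volume.restrict (Ioi t0)) := by
    intro n
    rcases Nat.eq_zero_or_pos n with rfl | hn
    · rw [hb0]
      simp only [zero_mul]
      exact integrable_zero _ _ _
    · have hn' : (0 : ℝ) < n := by exact_mod_cast hn
      have h0 : 0 < c * n := by positivity
      have h1 := integrableOn_exp_mul_Ioi (a := -(c * n)) (by linarith) t0
      exact (Integrable.ofReal h1).const_mul (b n)
  have hnorm : ∀ n : ℕ, ∫ t in Ioi t0, ‖b n * (Real.exp (-(c * n) * t) : ℂ)‖ ≤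
      |C| / c * ((n : ℝ) ^ m * Real.exp (-((c * t0) * n))) := by
    intro n
    rcases Nat.eq_zero_or_pos n with rfl | hn
    · rw [hb0]
      simp only [zero_mul, norm_zero, integral_zero]
      positivity
    · have hn' : (1 : ℝ) ≤ n := by exact_mod_cast hn
      have h0 : 0 < c * n := by positivity
      have e1 : ∀ t : ℝ, ‖b n * (Real.exp (-(c * n) * t) : ℂ)‖ =
          ‖b n‖ * Real.exp (-(c * n) * t) := by
        intro t
        rw [norm_mul, Complex.norm_real, Real.norm_eq_abs, Real.abs_exp]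
      simp only [e1]
      rw [integral_const_mul, integral_exp_mul_Ioi (by linarith), neg_div_neg_eq]
      have h1 : ‖b n‖ ≤ |C| * (n : ℝ) ^ m :=
        (hb n hn).trans (mul_le_mul_of_nonneg_right (le_abs_self C) (by positivity))
      have h2 : Real.exp (-(c * n) * t0) / (c * n) ≤ Real.exp (-((c * t0) * n)) / c := by
        rw [show -(c * n) * t0 = -((c * t0) * n) by ring]
        apply div_le_div_of_nonneg_left (Real.exp_pos _).le hc
        nlinarith
      calc ‖b n‖ * (Real.exp (-(c * n) * t0) / (c * n)) ≤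
            (|C| * (n : ℝ) ^ m) * (Real.exp (-((c * t0) * n)) / c) :=
            mul_le_mul h1 h2 (by positivity) (by positivity)
        _ = _ := by ring
  have hsum : Summable fun n : ℕ => ∫ t in Ioi t0, ‖b n * (Real.exp (-(c * n) * t) : ℂ)‖ := by
    refine Summable.of_nonneg_of_le (fun n => integral_nonneg fun t => norm_nonneg _) hnorm ?_
    exact (summable_maj (c * t0) (by positivity) m).mul_left _
  rw [← integral_tsum_of_summable_integral_norm hint hsum]
  refine tsum_congr fun n => ?_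
  rcases Nat.eq_zero_or_pos n with rfl | hn
  · rw [hb0]; simp
  · exact int_term _ _ _ hc n hn

/-- the lower part of the integral -/
lemma int_low (g g' : ℝ → ℂ) (w : ℂ) (t0 : ℝ) (ht : 0 < t0)
    (h : ∀ t : ℝ, 0 < t → g (t⁻¹) = w * (t : ℂ) ^ (2 : ℤ) * g' t) :
    ∫ t in Ioc 0 t0, g t = w * ∫ t in Ioi t0⁻¹, g' t := by
  have h1 : ∫ t in Ioc 0 t0, g t = mellin ((Iic t0).indicator g) 1 := by
    rw [mellin]
    simp only [sub_self, Complex.cpow_zero, one_smul]
    rw [setIntegral_indicator measurableSet_Iic]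
    rfl
  have h2 : mellin ((Iic t0).indicator g) 1 =
      mellin (fun t => (Iic t0).indicator g t⁻¹) (-1) := by
    rw [mellin_comp_inv, neg_neg]
  rw [h1, h2, mellin]
  have h3 : ∀ t ∈ Ioi (0 : ℝ), (t : ℂ) ^ ((-1 : ℂ) - 1) • (Iic t0).indicator g t⁻¹ =
      (Ici t0⁻¹).indicator (fun t => w * g' t) t := by
    intro t (ht' : 0 < t)
    by_cases hh : t⁻¹ ≤ t0
    · have hh' : t0⁻¹ ≤ t := inv_le_of_inv_le₀ ht' hh
      rw [indicator_of_mem (show t⁻¹ ∈ Iic t0 from hh), indicator_of_mem (show t ∈ Ici t0⁻¹ from hh')]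
      rw [h t ht', smul_eq_mul]
      have htc : (t : ℂ) ≠ 0 := by exact_mod_cast ht'.ne'
      have e1 : (t : ℂ) ^ ((-1 : ℂ) - 1) = ((t : ℂ) ^ (2 : ℤ))⁻¹ := by
        rw [show ((-1 : ℂ) - 1) = ((-2 : ℤ) : ℂ) by push_cast; ring, Complex.cpow_intCast, zpow_neg]
      rw [e1]
      have : (t : ℂ) ^ (2 : ℤ) ≠ 0 := zpow_ne_zero _ htc
      field_simp
    · have hh' : ¬ t0⁻¹ ≤ t := fun h' => hh (inv_le_of_inv_le₀ ht h')
      rw [indicator_of_notMem (show t⁻¹ ∉ Iic t0 from hh),
        indicator_of_notMem (show t ∉ Ici t0⁻¹ from hh'), smul_zero]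
  rw [setIntegral_congr_fun measurableSet_Ioi h3, setIntegral_indicator measurableSet_Ici]
  have h4 : Ioi (0 : ℝ) ∩ Ici t0⁻¹ = Ici t0⁻¹ := by
    apply inter_eq_right.2
    intro x hx
    have : 0 < t0⁻¹ := by positivity
    exact lt_of_lt_of_le this hx
  rw [h4, integral_Ici_eq_integral_Ioi, integral_const_mul]

theorem mellin2 {b : ℕ → ℂ} {m C R : ℝ} (hR : 0 < R) (hb0 : b 0 = 0) (hm : 0 ≤ m)
    (hb : ∀ n : ℕ, 1 ≤ n → ‖b n‖ ≤ C * (n : ℝ) ^ m) {w : ℂ} (hw : w ≠ 0)
    (hfe : ∀ t : ℝ, 0 < t → ∑' n : ℕ, b n * (Real.exp (-(2 * Real.pi * n / R) / t) : ℂ) =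
      w * (t : ℂ) ^ (2 : ℤ) * ∑' n : ℕ, (starRingEnd ℂ) (b n) *
        (Real.exp (-(2 * Real.pi * n / R) * t) : ℂ)) :
    ∃ F : ℂ → ℂ, Differentiable ℂ F ∧
      (∀ s : ℂ, m + 2 < s.re → F s = ∑' n : ℕ, b n * (n : ℂ) ^ (-(s + 1 / 2))) ∧
      ∀ X Y : ℝ, 0 < X → 0 < Y → X * Y = R ^ 2 / (4 * Real.pi ^ 2) →
        F (1 / 2) = ∑' n : ℕ, b n / n * (Real.exp (-(n / X)) : ℂ) +
          w * ∑' n : ℕ, (starRingEnd ℂ) (b n) / n * (Real.exp (-(n / Y)) : ℂ) := by
  have hpi := Real.pi_pos
  set c : ℝ := 2 * Real.pi / R with hc'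
  have hc : 0 < c := by positivity
  have hb' : ∀ n : ℕ, 1 ≤ n → ‖(starRingEnd ℂ) (b n)‖ ≤ C * (n : ℝ) ^ m := by
    intro n hn; rw [RCLike.norm_conj]; exact hb n hn
  have hb0' : (starRingEnd ℂ) (b 0) = 0 := by rw [hb0, map_zero]
  have hrel : ∀ x : ℝ, 0 < x → Th b c (1 / x) =
      w * (x : ℂ) ^ (2 : ℤ) * Th (fun n => (starRingEnd ℂ) (b n)) c x := by
    intro x hx
    have h := hfe x hx
    rw [Th, Th]
    have e1 : ∀ n : ℕ, -(c * n) * (1 / x) = -(2 * Real.pi * n / R) / x := by
      intro n; rw [hc']; ring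
    have e2 : ∀ n : ℕ, -(c * n) * x = -(2 * Real.pi * n / R) * x := by
      intro n; rw [hc']; ring
    simp only [e1, e2]
    exact h
  let P : WeakFEPair ℂ :=
    { f := Th b c
      g := Th (fun n => (starRingEnd ℂ) (b n)) c
      k := 2
      ε := w
      f₀ := 0
      g₀ := 0
      hf_int := (continuousOn_Th hb0 hb hc).locallyIntegrableOn measurableSet_Ioi
      hg_int := (continuousOn_Th hb0' hb' hc).locallyIntegrableOn measurableSet_Ioi
      hk := by norm_num
      hε := hw
      h_feq := by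
        intro x (hx : 0 < x)
        rw [hrel x hx, smul_eq_mul]
        congr 2
        rw [show ((2 : ℝ)) = ((2 : ℤ) : ℝ) by norm_num, Real.rpow_intCast, Complex.ofReal_zpow]
      hf_top := Th_isBigO hb0 hb hc
      hg_top := Th_isBigO hb0' hb' hc }
  have hP : IsStrongFEPair P := ⟨rfl, rfl⟩
  have hΛf : P.Λ = mellin (Th b c) := hP.Λ_eq
  have hcC : (c : ℂ) ≠ 0 := by exact_mod_cast hc.ne'
  set κ : ℂ := 1 / 2 with hκ
  let F : ℂ → ℂ := fun s => P.Λ (s + κ) * (c : ℂ) ^ (s + κ) * (Complex.Gamma (s + κ))⁻¹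
  refine ⟨F, ?_, ?_, ?_⟩
  · -- differentiable
    have h1 : Differentiable ℂ (fun s : ℂ => P.Λ (s + κ)) :=
      hP.differentiable_Λ.comp (differentiable_id.add_const κ)
    have h2 : Differentiable ℂ (fun s : ℂ => (c : ℂ) ^ (s + κ)) := by
      intro s
      exact (DifferentiableAt.const_cpow (by fun_prop) (Or.inl hcC))
    have h3 : Differentiable ℂ (fun s : ℂ => (Complex.Gamma (s + κ))⁻¹) :=
      Complex.differentiable_one_div_Gamma.comp (differentiable_id.add_const κ)
    exact (h1.mul h2).mul h3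
  · -- Dirichlet series
    intro s hs
    set S : ℂ := s + κ with hS
    have hSre : S.re = s.re + 1 / 2 := by rw [hS, hκ]; simp
    have hSm : m + 2 < S.re := by rw [hSre]; linarith
    have hSpos : 0 < S.re := by linarith
    have hG : Complex.Gamma S ≠ 0 := Complex.Gamma_ne_zero_of_re_pos hSpos
    have h1 := hasSum_mellin (a := b) (p := fun n : ℕ => c * n) (F := Th b c) (s := S)
      (by
        intro n
        rcases Nat.eq_zero_or_pos n with rfl | hn
        · exact Or.inl hb0
        · right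
          have : (0 : ℝ) < n := by exact_mod_cast hn
          positivity) hSpos
      (by
        intro t (ht : 0 < t)
        exact (summable_term hb0 hb hc ht).hasSum)
      (by
        have h2 : Summable (fun n : ℕ => |C| / c ^ S.re * (n : ℝ) ^ (m - S.re)) :=
          (Real.summable_nat_rpow.mpr (by linarith)).mul_left _
        refine Summable.of_nonneg_of_le (fun n => by positivity) (fun n => ?_) h2
        rcases Nat.eq_zero_or_pos n with rfl | hn
        · rw [hb0, norm_zero, zero_div]; positivity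
        · have hn' : (0 : ℝ) < n := by exact_mod_cast hn
          have h3 : ‖b n‖ ≤ |C| * (n : ℝ) ^ m :=
            (hb n hn).trans (mul_le_mul_of_nonneg_right (le_abs_self C) (by positivity))
          rw [Real.mul_rpow hc.le hn'.le, Real.rpow_sub hn', div_mul_div_comm]
          exact div_le_div_of_nonneg_right h3 (by positivity))
    have h2 := h1.tsum_eq
    have h3 : F s = (∑' n : ℕ, Complex.Gamma S * b n / ((c * n : ℝ) : ℂ) ^ S) * (c : ℂ) ^ S *
        (Complex.Gamma S)⁻¹ := by
      simp only [F]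
      rw [← hS, hΛf, ← h2]
    have hcs : (c : ℂ) ^ S ≠ 0 := by
      rw [Complex.cpow_def_of_ne_zero hcC]; exact Complex.exp_ne_zero _
    rw [h3, ← tsum_mul_right, ← tsum_mul_right]
    refine tsum_congr (fun n => ?_)
    rcases Nat.eq_zero_or_pos n with rfl | hn
    · rw [hb0]; simp
    · have hn' : (n : ℂ) ≠ 0 := by exact_mod_cast hn.ne'
      have hnS : (n : ℂ) ^ S ≠ 0 := by
        rw [Complex.cpow_def_of_ne_zero hn']; exact Complex.exp_ne_zero _
      rw [Complex.ofReal_mul, Complex.mul_cpow_ofReal_nonneg hc.le (Nat.cast_nonneg n),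
        Complex.cpow_neg]
      simp only [Complex.ofReal_natCast]
      field_simp
  · -- the central value
    intro X Y hX hY hXY
    have hc2 : c ^ 2 * (X * Y) = 1 := by
      rw [hXY, hc']
      field_simp
      ring
    set t0 : ℝ := 1 / (c * X) with ht0
    have ht0p : 0 < t0 := by positivity
    have e1 : F (1 / 2) = (c : ℂ) * ∫ t in Ioi (0 : ℝ), Th b c t := by
      simp only [F]
      rw [hκ, show (1 / 2 + 1 / 2 : ℂ) = 1 by norm_num, Complex.cpow_one, Complex.Gamma_one, inv_one,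
        mul_one, mul_comm, hΛf, mellin]
      simp only [sub_self, Complex.cpow_zero, one_smul]
    have hInt : IntegrableOn (Th b c) (Ioi 0) := by
      have h1 := (hP.hasMellin (1 : ℂ)).1
      have h2 : IntegrableOn (fun t : ℝ => (t : ℂ) ^ ((1 : ℂ) - 1) • Th b c t) (Ioi 0) := h1
      simpa only [sub_self, Complex.cpow_zero, one_smul] using h2
    have e2 : ∫ t in Ioi (0 : ℝ), Th b c t =
        (∫ t in Ioc (0 : ℝ) t0, Th b c t) + ∫ t in Ioi t0, Th b c t := by
      rw [← Ioc_union_Ioi_eq_Ioi ht0p.le]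
      refine setIntegral_union ?_ measurableSet_Ioi (hInt.mono_set Ioc_subset_Ioi_self)
        (hInt.mono_set (Ioi_subset_Ioi ht0p.le))
      rw [Set.disjoint_left]
      intro x hx hx'
      exact absurd hx.2 (not_le.2 hx')
    have e3 : ∫ t in Ioc (0 : ℝ) t0, Th b c t =
        w * ∫ t in Ioi t0⁻¹, Th (fun n => (starRingEnd ℂ) (b n)) c t := by
      refine int_low _ _ w t0 ht0p fun t ht => ?_
      rw [← one_div]
      exact hrel t ht
    have hcX : t0⁻¹ = c * X := by rw [ht0]; field_simp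
    rw [e1, e2, e3, int_Th hb0 hb hc ht0p, int_Th hb0' hb' hc (inv_pos.2 ht0p), mul_add, add_comm,
      mul_left_comm, ← tsum_mul_left, ← tsum_mul_left]
    congr 1
    · refine tsum_congr fun n => ?_
      rcases Nat.eq_zero_or_pos n with rfl | hn
      · rw [hb0]; simp
      · have hn' : (n : ℂ) ≠ 0 := by exact_mod_cast hn.ne'
        have h1 : -(c * n) * t0 = -(n / X) := by
          rw [ht0]; field_simp
        rw [h1]
        push_cast
        field_simp
    · congr 1
      refine tsum_congr fun n => ?_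
      rcases Nat.eq_zero_or_pos n with rfl | hn
      · rw [hb0]; simp
      · have hn' : (n : ℂ) ≠ 0 := by exact_mod_cast hn.ne'
        have h1 : -(c * n) * t0⁻¹ = -(n / Y) := by
          rw [hcX]
          have h2 : c * (c * X) = 1 / Y := by
            rw [eq_div_iff hY.ne']
            linarith
          calc -(c * n) * (c * X) = -(n * (c * (c * X))) := by ring
            _ = _ := by rw [h2]; ring
        rw [h1]
        push_cast
        field_simp

end Pool.Agent.W378.CY
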