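import Pool.Agent.W440.TW.Twist

/-!
# CY-AFE : the theta relation with the explicit root number
-/

set_option autoImplicit false

open Complex Filter Topology Set UpperHalfPlane MatrixGroups CongruenceSubgroup ZMod

namespace Pool.Agent.W378.CY

open Pool.Agent.W440.TW

/-- the theta relation with the explicit root number -/
theorem twist_explicit (N : ℕ) [NeZero N] (k : ℤ)
    (f : CuspForm (Gamma0 N : Subgroup (GL (Fin 2) ℝ)) k) (ε : ℝ) (hf : W388.IsNewf N k f ε)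
    (q : ℕ) [NeZero q] (χ : DirichletCharacter ℂ q) (hχ : χ.IsPrimitive) (hco : Nat.Coprime q N)
    (t : ℝ) (ht : 0 < t) :
    ∑' n : ℕ, χ (n : ZMod q) * (qExpansion 1 f).coeff n *
      (Real.exp (-(2 * Real.pi * n / (Real.sqrt N * q)) / t) : ℂ) =
    ((ε : ℂ) * χ (-(N : ZMod q)) * gaussSum χ (stdAddChar (N := q)) /
      gaussSum χ⁻¹ (stdAddChar (N := q))) * (t : ℂ) ^ k *
      ∑' n : ℕ, (starRingEnd ℂ) (χ (n : ZMod q) * (qExpansion 1 f).coeff n) *
      (Real.exp (-(2 * Real.pi * n / (Real.sqrt N * q)) * t) : ℂ) := by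
  have hq : (0 : ℝ) < q := Nat.cast_pos.2 (Nat.pos_of_ne_zero (NeZero.ne q))
  have hN : (0 : ℝ) < N := Nat.cast_pos.2 (Nat.pos_of_ne_zero (NeZero.ne N))
  have hsN : 0 < Real.sqrt N := Real.sqrt_pos.2 hN
  have hχi := inv_primitive χ hχ
  set g := gaussSum χ (stdAddChar (N := q)) with hg
  set g' := gaussSum χ⁻¹ (stdAddChar (N := q)) with hg'
  have hg0 : g ≠ 0 := gauss_ne_zero χ hχ
  have hg0' : g' ≠ 0 := gauss_ne_zero χ⁻¹ hχi
  let n0 : (ZMod q)ˣ := ZMod.unitOfCoprime N hco.symm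
  have hn0 : (-(N : ZMod q)) = ((-n0 : (ZMod q)ˣ) : ZMod q) := by simp [n0]
  rw [hn0]
  have h1 : 0 < (1 / (Real.sqrt N * t)) / q := by positivity
  have h2 : 0 < (t / Real.sqrt N) / q := by positivity
  have s1 := hasSum_twist f χ⁻¹ hχi (1 / (Real.sqrt N * t)) h1
  have s2 := hasSum_twist f χ hχ (t / Real.sqrt N) h2
  rw [← hg'] at s1
  rw [← hg] at s2
  have key : (∑ u : (ZMod q)ˣ, χ⁻¹ (u : ZMod q) *
        f (pt ((((u : ZMod q).val : ℤ) : ℝ) / q) ((1 / (Real.sqrt N * t)) / q) h1)) =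
      (ε : ℂ) * (t : ℂ) ^ k * χ ((-n0 : (ZMod q)ˣ) : ZMod q) *
      (∑ u : (ZMod q)ˣ, χ (u : ZMod q) *
        f (pt ((((u : ZMod q).val : ℤ) : ℝ) / q) ((t / Real.sqrt N) / q) h2)) := by
    rw [← Equiv.sum_comp ((Equiv.mulLeft (-n0)).trans (Equiv.inv (ZMod q)ˣ))
      (fun u : (ZMod q)ˣ => χ (u : ZMod q) *
        f (pt ((((u : ZMod q).val : ℤ) : ℝ) / q) ((t / Real.sqrt N) / q) h2)), Finset.mul_sum]
    apply Finset.sum_congr rfl
    intro u _
    simp only [Equiv.trans_apply, Equiv.coe_mulLeft, Equiv.inv_apply]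
    set v : (ZMod q)ˣ := (-n0 * u)⁻¹ with hv
    have hdvd : (q : ℤ) ∣ (N * ((u : ZMod q).val : ℤ) * ((v : ZMod q).val : ℤ) + 1) := by
      rw [← ZMod.intCast_zmod_eq_zero_iff_dvd]
      push_cast
      rw [ZMod.natCast_zmod_val, ZMod.natCast_zmod_val]
      have h3 : (N : ZMod q) = (n0 : ZMod q) := by simp [n0]
      rw [h3, ← Units.val_mul, ← Units.val_mul]
      have h4 : n0 * u * v = -1 := by
        rw [hv, mul_inv_rev]
        rw [show (-n0 : (ZMod q)ˣ)⁻¹ = -(n0⁻¹) from inv_neg ..]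
        rw [mul_neg, mul_neg]
        group
      rw [h4]
      simp
    obtain ⟨d, hd⟩ := hdvd
    rw [f_pt_flip f ε hf ((u : ZMod q).val : ℤ) ((v : ZMod q).val : ℤ) d (by linarith) t ht h1 h2]
    have h5 : χ⁻¹ (u : ZMod q) = χ ((-n0 : (ZMod q)ˣ) : ZMod q) * χ (v : ZMod q) := by
      rw [← map_mul, ← Units.val_mul, MulChar.inv_apply_eq_inv']
      have h6 : -n0 * v = u⁻¹ := by
        rw [hv, mul_inv_rev]
        rw [mul_comm u⁻¹, mul_inv_cancel_left]
      rw [h6]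
      apply inv_eq_of_mul_eq_one_left
      rw [← map_mul, ← Units.val_mul, inv_mul_cancel, Units.val_one, map_one]
    rw [h5]
    ring
  rw [key] at s1
  set S2 := (∑ u : (ZMod q)ˣ, χ (u : ZMod q) *
        f (pt ((((u : ZMod q).val : ℤ) : ℝ) / q) ((t / Real.sqrt N) / q) h2)) with hS2
  have r1 : HasSum (fun n : ℕ => χ (n : ZMod q) * (qExpansion 1 f).coeff n *
      (Real.exp (-(2 * Real.pi * n / (Real.sqrt N * q)) / t) : ℂ))
      (g'⁻¹ * ((ε : ℂ) * (t : ℂ) ^ k * χ ((-n0 : (ZMod q)ˣ) : ZMod q) * S2)) := by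
    have := s1.mul_left g'⁻¹
    refine HasSum.congr_fun' this (fun n => ?_)
    rw [inv_mul_cancel_left₀ hg0', inv_inv]
    congr 4
    field_simp
  have r2 : HasSum (fun n : ℕ => (starRingEnd ℂ) (χ (n : ZMod q) * (qExpansion 1 f).coeff n) *
      (Real.exp (-(2 * Real.pi * n / (Real.sqrt N * q)) * t) : ℂ)) (g⁻¹ * S2) := by
    have := s2.mul_left g⁻¹
    refine HasSum.congr_fun' this (fun n => ?_)
    rw [inv_mul_cancel_left₀ hg0, map_mul]
    have h6 : (starRingEnd ℂ) (χ (n : ZMod q)) = χ⁻¹ (n : ZMod q) := MulChar.star_apply' χ _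
    have h7 : (starRingEnd ℂ) ((qExpansion 1 f).coeff n) = (qExpansion 1 f).coeff n :=
      Complex.conj_eq_iff_im.2 (hf.real n)
    rw [h6, h7]
    congr 4
    field_simp
  rw [r1.tsum_eq, r2.tsum_eq]
  field_simp

/-- the product of the two Gauss sums of a primitive character -/
theorem gauss_prod (q : ℕ) [NeZero q] (χ : DirichletCharacter ℂ q) (hpr : χ.IsPrimitive) :
    χ⁻¹ (-1 : ZMod q) * (gaussSum χ (stdAddChar (N := q)) * gaussSum χ⁻¹ (stdAddChar (N := q))) =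
      q := by
  classical
  have h1 : ∑ a : ZMod q, gaussSum χ (stdAddChar.mulShift a) * stdAddChar (-a) = (q : ℂ) := by
    unfold gaussSum
    simp only [AddChar.mulShift_apply, Finset.sum_mul]
    rw [Finset.sum_comm]
    have e1 : ∀ u : ZMod q, ∑ a : ZMod q, χ u * (stdAddChar (a * u) : ℂ) * stdAddChar (-a) =
        if u = 1 then (q : ℂ) else 0 := by
      intro u
      have e2 : ∀ a : ZMod q, χ u * (stdAddChar (a * u) : ℂ) * stdAddChar (-a) =
          χ u * stdAddChar (a * (u - 1)) := by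
        intro a
        rw [mul_assoc, ← AddChar.map_add_eq_mul]
        congr 2
        ring
      rw [Finset.sum_congr rfl fun a _ => e2 a, ← Finset.mul_sum,
        AddChar.sum_mulShift (u - 1) (ZMod.isPrimitive_stdAddChar q)]
      by_cases hu : u = 1
      · subst hu
        simp
      · rw [if_neg (sub_ne_zero.2 hu), if_neg hu]
        simp
    rw [Finset.sum_congr rfl fun u _ => e1 u]
    simp
  have h2 : ∑ a : ZMod q, gaussSum χ (stdAddChar.mulShift a) * stdAddChar (-a) =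
      gaussSum χ (stdAddChar (N := q)) * ∑ a : ZMod q, χ⁻¹ a * (stdAddChar (-a) : ℂ) := by
    rw [Finset.mul_sum]
    refine Finset.sum_congr rfl fun a _ => ?_
    rw [gaussSum_mulShift_of_isPrimitive (stdAddChar (N := q)) hpr a]
    ring
  have h3 : ∑ u : ZMod q, χ⁻¹ u * (stdAddChar (-u) : ℂ) =
      χ⁻¹ (-1) * gaussSum χ⁻¹ (stdAddChar (N := q)) := by
    unfold gaussSum
    rw [Finset.mul_sum, ← Equiv.sum_comp (Equiv.neg (ZMod q))]
    apply Finset.sum_congr rfl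
    intro u _
    simp only [Equiv.neg_apply, neg_neg]
    rw [← mul_assoc, ← map_mul, neg_one_mul]
  rw [h3, h1] at h2
  rw [h2]
  ring

/-- the root number -/
theorem root_number (q : ℕ) [NeZero q] (χ : DirichletCharacter ℂ q) (hpr : χ.IsPrimitive) (ε : ℂ)
    (x : ZMod q) :
    ε * χ (-x) * gaussSum χ (stdAddChar (N := q)) / gaussSum χ⁻¹ (stdAddChar (N := q)) =
      ε * χ x * gaussSum χ (stdAddChar (N := q)) ^ 2 / q := by
  have h1 := gauss_prod q χ hpr
  set g := gaussSum χ (stdAddChar (N := q)) with hg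
  set g' := gaussSum χ⁻¹ (stdAddChar (N := q)) with hg'
  have hg0 : g ≠ 0 := gauss_ne_zero χ hpr
  have hg0' : g' ≠ 0 := gauss_ne_zero χ⁻¹ (inv_primitive χ hpr)
  have h3 : χ (-1 : ZMod q) * χ⁻¹ (-1 : ZMod q) = 1 := by
    have := congrArg (fun ψ : DirichletCharacter ℂ q => ψ (-1 : ZMod q)) (mul_inv_cancel χ)
    simp only [MulChar.mul_apply] at this
    rw [this]
    have h4 := MulChar.one_apply_coe (R := ZMod q) (R' := ℂ) (-1 : (ZMod q)ˣ)
    simpa using h4
  have h5 : g * g' = χ (-1 : ZMod q) * q := by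
    rw [← h1]
    calc g * g' = (χ (-1 : ZMod q) * χ⁻¹ (-1 : ZMod q)) * (g * g') := by rw [h3, one_mul]
      _ = _ := by ring
  have hqc : (q : ℂ) ≠ 0 := Nat.cast_ne_zero.2 (NeZero.ne q)
  have h6 : χ (-x) = χ (-1 : ZMod q) * χ x := by rw [← map_mul, neg_one_mul]
  rw [h6, div_eq_div_iff hg0' hqc]
  calc ε * (χ (-1 : ZMod q) * χ x) * g * q = ε * χ x * g * (χ (-1 : ZMod q) * q) := by ring
    _ = ε * χ x * g * (g * g') := by rw [h5]
    _ = _ := by ring


end Pool.Agent.W378.CY
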