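import Pool.Agent.W388.TW.Parts
import Pool.Agent.W192.CY.Stn
import Pool.Agent.W378.CY.AFE0
import Pool.Agent.W378.CY.AFE1

/-!
# CY-AFE : the central value of the twisted L-function
-/

set_option autoImplicit false

open Complex Filter Topology Set UpperHalfPlane MatrixGroups CongruenceSubgroup ZMod

namespace Pool.Agent.W378.CY

open Pool.Agent.W440.TW

theorem t_AFE : Pool.Agent.W192.CY.G_AFE := by
  intro N _ f ε hf q _ χ hco hpr
  have hNn : 0 < N := Nat.pos_of_ne_zero (NeZero.ne N)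
  have hN : (0 : ℝ) < N := by exact_mod_cast hNn
  have hq : (0 : ℝ) < q := by exact_mod_cast Nat.pos_of_ne_zero (NeZero.ne q)
  have hsN : 0 < Real.sqrt N := Real.sqrt_pos.2 hN
  obtain ⟨C, hC⟩ := W388.coeff_bound f (by norm_num)
  set R : ℝ := Real.sqrt N * q with hR
  have hRp : 0 < R := by positivity
  set w : ℂ := (ε : ℂ) * χ (N : ZMod q) * gaussSum χ (stdAddChar (N := q)) ^ 2 / q with hw
  have hw0 : w ≠ 0 := by
    have h1 : (ε : ℂ) ≠ 0 := by rcases hf.sign with h | h <;> simp [h]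
    have h2 : χ (N : ZMod q) ≠ 0 := by
      have hu : IsUnit (N : ZMod q) := (ZMod.isUnit_iff_coprime N q).2 hco.symm
      exact (hu.map χ).ne_zero
    have h3 := gauss_ne_zero χ hpr
    have h4 : (q : ℂ) ≠ 0 := Nat.cast_ne_zero.2 (NeZero.ne q)
    rw [hw]
    exact div_ne_zero (mul_ne_zero (mul_ne_zero h1 h2) (pow_ne_zero 2 h3)) h4
  obtain ⟨F, hFd, hFs, hFc⟩ := mellin2 (b := fun n => χ (n : ZMod q) * (qExpansion 1 f).coeff n)
    (m := ((2 : ℤ) : ℝ) / 2) (C := C) hRp (by rw [W388.coeff_zero f, mul_zero]) (by norm_num)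
    (fun n hn => by
      rw [norm_mul]
      calc ‖χ (n : ZMod q)‖ * ‖(qExpansion 1 f).coeff n‖ ≤ 1 * ‖(qExpansion 1 f).coeff n‖ :=
            mul_le_mul_of_nonneg_right (χ.norm_le_one _) (norm_nonneg _)
        _ ≤ _ := by rw [one_mul]; exact hC n hn) hw0
    (fun t ht => by
      have h := twist_explicit N 2 f ε hf q χ hpr hco t ht
      rw [root_number q χ hpr] at h
      exact h)
  have hrs := W388.p_rs N 2 (by norm_num) f ε hf
  have hH := W388.heckeSeq_lamf hf
  obtain ⟨A1, hA1, d1, d2, d3⟩ := W388.p_dir N hNn (W388.lamf f) hH hrs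
  have hsum : ∀ s : ℂ, 1 < s.re →
      Summable (fun n : ℕ => ‖χ (n : ZMod q) * (W388.lamf f n : ℂ) * (n : ℂ) ^ (-s)‖) := by
    intro s hs
    exact (d3 q χ (fun s => ∑' n : ℕ, χ (n : ZMod q) * (W388.lamf f n : ℂ) * (n : ℂ) ^ (-s))
      (fun _ _ => rfl)).1 s hs
  refine ⟨F, hFd, fun s hs => ?_, fun X Y hX hY hXY => ?_⟩
  · refine W388.ext_series F hFd (fun n => χ (n : ZMod q) * (W388.lamf f n : ℂ)) ?_ hsum
      (((2 : ℤ) : ℝ) / 2 + 2) (fun s hs => ?_) s hs
    · rw [hH.zero]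
      simp
    · rw [hFs s hs]
      refine tsum_congr fun n => ?_
      rcases Nat.eq_zero_or_pos n with h0 | h0
      · subst h0
        rw [W388.coeff_zero f, hH.zero]
        simp
      · have hn0 : (n : ℂ) ≠ 0 := by exact_mod_cast h0.ne'
        rw [W388.lamf_eq hf n h0.ne']
        have : (n : ℂ) ^ (-(s + 1 / 2)) =
            (n : ℂ) ^ (-s) * (n : ℂ) ^ (-((((2 : ℤ) : ℂ) - 1) / 2)) := by
          rw [← Complex.cpow_add _ _ hn0]
          congr 1; push_cast; ring
        rw [this, Complex.cpow_neg (n : ℂ) ((((2 : ℤ) : ℂ) - 1) / 2)]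
        have h1 : (n : ℂ) ^ ((((2 : ℤ) : ℂ) - 1) / 2) ≠ 0 := by
          rw [Complex.cpow_def_of_ne_zero hn0]
          exact Complex.exp_ne_zero _
        field_simp
  · have hXY' : X * Y = R ^ 2 / (4 * Real.pi ^ 2) := by
      rw [hXY, hR, mul_pow, Real.sq_sqrt hN.le]
    rw [hFc X Y hX hY hXY']
    congr 1
    · refine tsum_congr fun n => ?_
      rw [← W388.coeff_real hf n]
    · congr 1
      refine tsum_congr fun n => ?_
      rw [map_mul, W388.coeff_real hf n, Complex.conj_ofReal]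
      simp only [Complex.ofReal_re]

end Pool.Agent.W378.CY
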